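import Pool.Agent.H13.LNT.AYP

/-!
# Weight systems, Vassiliev invariants and torsion (`MP_559314_gt`): assembly
-/

set_option autoImplicit false

open Finset

namespace Pool.Agent.H13.LN

open Pool.Agent.H59.LIN

theorem asm (hSYS : T_SYS) (hBRI : T_BRI) (hBRL : T_BRL) (hFGQ : T_FGQ (KW →₀ ℤ) Fil Chd)
    (hSTR : T_STR (KW →₀ ℤ) Fil Chd) (hTOR : T_TOR (KW →₀ ℤ) Fil Chd)
    (hAQP : T_AQP (KW →₀ ℤ) Fil Chd) (P : Set ℕ) (hP : ∀ p ∈ P, p.Prime) :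
    List.TFAE [
      ∀ (R : Type) [CommRing R], (∀ q : ℕ, q.Prime → q ∉ P → IsUnit (q : R)) → Yes R,
      Yes ℚ ∧ ∀ p ∈ P, Yes (ZMod p),
      Yes ℚ ∧ ∀ (d : ℕ) (x : Chd d), ∀ p ∈ P, p • x = 0 → x = 0] := by
  obtain ⟨S, hS⟩ := hSYS
  have hY : ∀ (R : Type) [Ring R], Yes R ↔ S.Ys R := fun R _ => hBRI S hS R
  have hU : ∀ p : ℕ, p.Prime → Yes (ZMod p) → ∀ (d : ℕ) (x : KW →₀ ℤ), p • x ∈ Fil d →
      x ∈ Fil d := fun p hp h => hTOR S p hp (hBRL p hp) (hSTR S p hp ((hY _).1 h))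
  tfae_have 1 → 2 := by
    intro h
    refine ⟨h ℚ fun q hq _ => ?_, fun p hp => h (ZMod p) fun q hq hqP => ?_⟩
    · exact IsUnit.mk0 _ (Nat.cast_ne_zero.2 hq.ne_zero)
    · rw [ZMod.isUnit_iff_coprime, Nat.coprime_primes hq (hP p hp)]
      rintro rfl
      exact hqP hp
  tfae_have 2 → 3 := by
    rintro ⟨hQ, h⟩
    refine ⟨hQ, fun d x p hp hx => ?_⟩
    exact hAQP S p (hP p hp) ((hY ℚ).1 hQ) ((hY _).1 (h p hp)) (hU p (hP p hp) (h p hp)) d x hx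
  tfae_have 3 → 1 := by
    rintro ⟨hQ, h⟩ R _ hR
    refine (hY R).2 ?_
    refine Pool.Agent.H13.LNT.ayp _ _ _ hFGQ S P hP ((hY ℚ).1 hQ) h R ?_
    intro q hq hqP
    have hu := hR q hq hqP
    have : (fun b : R => q • b) = fun b : R => (q : R) * b := by
      funext b
      rw [nsmul_eq_mul]
    rw [this]
    exact IsUnit.isUnit_iff_mulLeft_bijective.1 hu
  tfae_finish

end Pool.Agent.H13.LN
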