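import Pool.Agent.H13.LN.Stmt

/-!
# Weight systems, Vassiliev invariants and torsion (`MP_559314_gt`): objects of the proof
-/

set_option autoImplicit false

open Finset

namespace Pool.Agent.H13.LN

open Pool.Agent.H59.LIN

/-! ### flat words

A flat word is a word with the letters `(i, true)`, a double point at the positions `i`, `i + 1`, and
`(i, false)`, a crossing of an unspecified sign. (The type is the same as the type `Wd n` of braid
words.) -/

/-- number of double points of a flat word -/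
def nd {n : ℕ} (f : Wd n) : ℕ := f.countP fun x => x.2

/-- the singular word of a flat word: all crossings are positive -/
def lft {n : ℕ} (f : Wd n) : SWd n := f.map fun x => (x.1, if x.2 then none else some true)

/-- the flat word of a singular word -/
def flt {n : ℕ} (w : SWd n) : Wd n := w.map fun x => (x.1, x.2.isNone)

/-- the function `g` on flat words behaves like an invariant of degree `d` on the knots with `d`
double points (`kink` is about the knots with `d - 1` double points) -/
structure Flat {B : Type*} [AddCommGroup B] (d : ℕ) (g : (n : ℕ) → Wd n → B) : Prop where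
  ss : ∀ (n : ℕ) (u v : Wd n) (i : Fin n), Knot (u ++ v) → nd (u ++ v) = d →
    g n (u ++ (i, false) :: (i, false) :: v) = g n (u ++ v)
  far : ∀ (n : ℕ) (u v : Wd n) (i j : Fin n) (b c : Bool), (i : ℕ) + 1 < j →
    Knot (u ++ (i, b) :: (j, c) :: v) → nd (u ++ (i, b) :: (j, c) :: v) = d →
    g n (u ++ (i, b) :: (j, c) :: v) = g n (u ++ (j, c) :: (i, b) :: v)
  braid : ∀ (n : ℕ) (u v : Wd n) (i j : Fin n), (j : ℕ) = i + 1 →
    Knot (u ++ (i, false) :: (j, false) :: (i, false) :: v) →
    nd (u ++ (i, false) :: (j, false) :: (i, false) :: v) = d →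
    g n (u ++ (i, false) :: (j, false) :: (i, false) :: v) =
      g n (u ++ (j, false) :: (i, false) :: (j, false) :: v)
  sx : ∀ (n : ℕ) (u v : Wd n) (i : Fin n), Knot (u ++ (i, false) :: (i, true) :: v) →
    nd (u ++ (i, false) :: (i, true) :: v) = d →
    g n (u ++ (i, false) :: (i, true) :: v) = g n (u ++ (i, true) :: (i, false) :: v)
  ssx : ∀ (n : ℕ) (u v : Wd n) (i j : Fin n), (j : ℕ) = i + 1 →
    Knot (u ++ (i, false) :: (j, false) :: (i, true) :: v) →
    nd (u ++ (i, false) :: (j, false) :: (i, true) :: v) = d →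
    g n (u ++ (i, false) :: (j, false) :: (i, true) :: v) =
      g n (u ++ (j, true) :: (i, false) :: (j, false) :: v)
  ssx' : ∀ (n : ℕ) (u v : Wd n) (i j : Fin n), (j : ℕ) = i + 1 →
    Knot (u ++ (j, false) :: (i, false) :: (j, true) :: v) →
    nd (u ++ (j, false) :: (i, false) :: (j, true) :: v) = d →
    g n (u ++ (j, false) :: (i, false) :: (j, true) :: v) =
      g n (u ++ (i, true) :: (j, false) :: (i, false) :: v)
  conj : ∀ (n : ℕ) (u v : Wd n), Knot (u ++ v) → nd (u ++ v) = d → g n (u ++ v) = g n (v ++ u)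
  stab : ∀ (n : ℕ) (w : Wd n), Knot w → nd w = d →
    g (n + 1) (up w ++ [(Fin.last n, false)]) = g n w
  kink : ∀ (n : ℕ) (w : Wd n), Knot w → nd w + 1 = d →
    g (n + 1) (up w ++ [(Fin.last n, true)]) = 0
  four : ∀ (n : ℕ) (u v : Wd n) (i j : Fin n), (j : ℕ) = i + 1 →
    Knot (u ++ (i, true) :: (j, false) :: (j, true) :: v) →
    nd (u ++ (i, true) :: (j, false) :: (j, true) :: v) = d →
    g n (u ++ (i, true) :: (j, false) :: (j, true) :: v) +
      g n (u ++ (i, true) :: (j, false) :: (i, false) :: (i, true) :: (j, false) :: v) =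
    g n (u ++ (j, false) :: (j, true) :: (i, true) :: v) +
      g n (u ++ (j, false) :: (i, false) :: (i, true) :: (j, false) :: (i, true) :: v)

/-- elementary steps between flat words on the same number of strands -/
inductive St {n : ℕ} : Wd n → Wd n → Prop
  | ss (u v : Wd n) (i : Fin n) : St (u ++ (i, false) :: (i, false) :: v) (u ++ v)
  | far (u v : Wd n) (i j : Fin n) (b c : Bool) : (i : ℕ) + 1 < j →
      St (u ++ (i, b) :: (j, c) :: v) (u ++ (j, c) :: (i, b) :: v)
  | braid (u v : Wd n) (i j : Fin n) : (j : ℕ) = i + 1 →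
      St (u ++ (i, false) :: (j, false) :: (i, false) :: v)
        (u ++ (j, false) :: (i, false) :: (j, false) :: v)
  | sx (u v : Wd n) (i : Fin n) :
      St (u ++ (i, false) :: (i, true) :: v) (u ++ (i, true) :: (i, false) :: v)
  | ssx (u v : Wd n) (i j : Fin n) : (j : ℕ) = i + 1 →
      St (u ++ (i, false) :: (j, false) :: (i, true) :: v)
        (u ++ (j, true) :: (i, false) :: (j, false) :: v)
  | ssx' (u v : Wd n) (i j : Fin n) : (j : ℕ) = i + 1 →
      St (u ++ (j, false) :: (i, false) :: (j, true) :: v)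
        (u ++ (i, true) :: (j, false) :: (i, false) :: v)

/-- equivalence of flat words on the same number of strands -/
def Eqv {n : ℕ} : Wd n → Wd n → Prop := Relation.EqvGen St

/-- `run` as a permutation: `rp w p = run w p` -/
def rp {n : ℕ} (w : Wd n) : Equiv.Perm (Fin (n + 1)) :=
  (w.map fun x => tr x.1).foldl Equiv.trans (Equiv.refl _)

/-- the pairs of strands which meet at the double points of a flat word (`σ p` is the position of
the strand `p`) -/
def pr {n : ℕ} : Equiv.Perm (Fin (n + 1)) → Wd n → List (Fin (n + 1) × Fin (n + 1))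
  | _, [] => []
  | σ, (i, b) :: w =>
    (if b then [(σ.symm i.castSucc, σ.symm i.succ)] else []) ++ pr (σ.trans (tr i)) w

/-- the double points which the strand `p` meets; the double points are numbered from `k` -/
def ev {n : ℕ} : ℕ → Wd n → Fin (n + 1) → List ℕ
  | _, [], _ => []
  | k, (i, b) :: w, p =>
    (if b = true ∧ (p = i.castSucc ∨ p = i.succ) then [k] else []) ++
      ev (if b then k + 1 else k) w (tr i p)

/-- the blocks of a flat word: the double points met by the strand `p`, by the next strand, … -/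
def blk {n : ℕ} (f : Wd n) (p : Fin (n + 1)) : List (List ℕ) :=
  List.ofFn fun j : Fin (n + 1) => ev 0 f ((run f)^[(j : ℕ)] p)

/-- valid lists of blocks with `d` double points -/
structure VL (d : ℕ) (L : List (List ℕ)) : Prop where
  ne : L ≠ []
  inc : ∀ b ∈ L, b.Pairwise (· < ·)
  cnt : ∀ k, L.flatten.count k = if k < d then 2 else 0

/-- rotation in time: the first `κ` double points become the last ones -/
def Rk (d κ : ℕ) (L : List (List ℕ)) : List (List ℕ) :=
  List.zipWith (fun b b' => (b.filter (κ ≤ ·)).map (· - κ) ++ (b'.filter (· < κ)).map (· + (d - κ)))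
    L (L.rotate 1)

/-- shift of the numbers by `2` -/
def s2 (L : List (List ℕ)) : List (List ℕ) := L.map fun b => b.map (· + 2)

/-- the function `H` on lists of blocks behaves like an invariant of degree `d` -/
structure HI {B : Type*} [AddCommGroup B] (d : ℕ) (H : List (List ℕ) → B) : Prop where
  rot : ∀ (b : List ℕ) (L : List (List ℕ)), VL d (b :: L) → H (L ++ [b]) = H (b :: L)
  rk : ∀ (κ : ℕ) (L : List (List ℕ)), VL d L → κ ≤ d → H (Rk d κ L) = H L
  emp : ∀ L : List (List ℕ), VL d L → H ([] :: L) = H L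
  sw : ∀ L : List (List ℕ), VL d L → 2 ≤ d → (∀ b ∈ L, ¬ (0 ∈ b ∧ 1 ∈ b)) →
    H (L.map fun b => b.map (Equiv.swap 0 1)) = H L
  kink : ∀ (e : ℕ) (b : List ℕ) (L : List (List ℕ)), d = e + 1 → VL e (b :: L) →
    H ((b ++ [e]) :: [e] :: L) = 0
  four : ∀ (e : ℕ) (L₁ L₂ L₃ : List (List ℕ)), d = e + 2 →
    VL e ([] :: (L₁ ++ [] :: (L₂ ++ [] :: L₃))) →
    H ([0, 1] :: (s2 L₁ ++ [0] :: (s2 L₂ ++ [1] :: s2 L₃))) +
      H ([0] :: (s2 L₁ ++ [0, 1] :: (s2 L₂ ++ [1] :: s2 L₃))) =
    H ([1] :: (s2 L₁ ++ [0, 1] :: (s2 L₂ ++ [0] :: s2 L₃))) +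
      H ([0, 1] :: (s2 L₁ ++ [1] :: (s2 L₂ ++ [0] :: s2 L₃)))

/-! ### the algebra -/

/-- a filtered group `U` with the filtration `F` and a presentation of the graded pieces by the
groups `A d` -/
structure Sys (U : Type) [AddCommGroup U] (F : ℕ → AddSubgroup U) (A : ℕ → Type)
    [∀ d, AddCommGroup (A d)] where
  anti : ∀ d, F (d + 1) ≤ F d
  zero : F 0 = ⊤
  φ : ∀ d, A d →+ U ⧸ F (d + 1)
  rng : ∀ (d : ℕ) (x : U), x ∈ F d ↔ ∃ a, φ d a = QuotientAddGroup.mk x
  fg : ∀ d, AddGroup.FG (A d)

/-- every homomorphism from `A d` to `B` is induced by a homomorphism on `U / F (d + 1)` -/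
def Sys.Ys {U : Type} [AddCommGroup U] {F : ℕ → AddSubgroup U} {A : ℕ → Type}
    [∀ d, AddCommGroup (A d)] (S : Sys U F A) (B : Type*) [AddCommGroup B] : Prop :=
  ∀ (d : ℕ) (W : A d →+ B), ∃ v : U ⧸ F (d + 1) →+ B, ∀ a, v (S.φ d a) = W a

/-- homomorphisms to `ℤ / p ^ a` can be lifted -/
def Lf {U : Type} [AddCommGroup U] (F : ℕ → AddSubgroup U) (p : ℕ) : Prop :=
  ∀ (a d : ℕ) (f : U ⧸ F d →+ ZMod (p ^ a)), 1 ≤ a → ∃ (M : ℕ)
    (f' : U ⧸ F M →+ ZMod (p ^ (a + 1))), ∀ x : U,
      ZMod.castHom (pow_dvd_pow p (Nat.le_succ a)) (ZMod (p ^ a)) (f' (QuotientAddGroup.mk x)) =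
        f (QuotientAddGroup.mk x)

end Pool.Agent.H13.LN
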