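import Pool.Agent.H83.LNT.AQP
import Pool.Agent.H34.LNT.BL2
import Pool.Agent.H99.LNT.BLV
import Pool.Agent.H78.LNT.BRL
import Pool.Agent.H35.LNT.C1
import Pool.Agent.H39.LNT.C2
import Pool.Agent.H82.LNT.CUB
import Pool.Agent.H98.LNT.EQC
import Pool.Agent.H73.LNT.EVA
import Pool.Agent.H73.LNT.EVP
import Pool.Agent.H11.LNT.EXA
import Pool.Agent.H24.LNT.FCC
import Pool.Agent.H99.LNT.FGQ
import Pool.Agent.H59.LNT.FLA
import Pool.Agent.H59.LNT.FLO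
import Pool.Agent.H68.LNT.FUL
import Pool.Agent.H70.LNT.GAU
import Pool.Agent.H42.LNT.GEQ
import Pool.Agent.H34.LNT.HEM
import Pool.Agent.H34.LNT.HEX
import Pool.Agent.H74.LNT.HFO
import Pool.Agent.H42.LNT.HKI
import Pool.Agent.H31.LNT.HRK
import Pool.Agent.H34.LNT.HRO
import Pool.Agent.H7.LNT.HSW
import Pool.Agent.H31.LNT.LFT
import Pool.Agent.H34.LNT.MAH
import Pool.Agent.H73.LNT.PRL
import Pool.Agent.H26.LNT.PRM
import Pool.Agent.H31.LNT.REA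
import Pool.Agent.H21.LNT.RES
import Pool.Agent.H72.LNT.RUN
import Pool.Agent.H78.LNT.SPL
import Pool.Agent.H99.LNT.STR
import Pool.Agent.H31.LNT.SUR
import Pool.Agent.H63.LNT.SYM
import Pool.Agent.H29.LNT.SYS
import Pool.Agent.H13.LNT.TOR
import Pool.Agent.H25.LNT.VFC
import Pool.Agent.H25.LNT.WSA
import Pool.Agent.H49.LNT.WSC
import Pool.Agent.H11.LNT.WSF
import Pool.Agent.H45.LNT.WSI
import Pool.Agent.H46.LNT.XC
import Pool.Agent.H59.LNT.COX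
import Pool.Agent.H59.LNT.NF
import Pool.Agent.H60.LNT.FGL
import Pool.Agent.H99.LNT.FGC
import Pool.Agent.H86.LNT.BRI
import Pool.Agent.H13.LN.Asm

/-!
# Weight systems, Vassiliev invariants and torsion (`MP_559314_gt`): the theorem
-/

set_option autoImplicit false

namespace Pool.Agent.H13.LN

open Pool.Agent.H59.LIN

theorem fin (P : Set ℕ) (hP : ∀ p ∈ P, p.Prime) :
    List.TFAE [
      ∀ (R : Type) [CommRing R], (∀ q : ℕ, q.Prime → q ∉ P → IsUnit (q : R)) → Yes R,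
      Yes ℚ ∧ ∀ p ∈ P, Yes (ZMod p),
      Yes ℚ ∧ ∀ (d : ℕ) (x : Chd d), ∀ p ∈ P, p • x = 0 → x = 0] := by
  have hRUN : T_RUN := H72.LNT.run
  have hEXA : T_EXA := H11.LNT.exa
  have hFCC : T_FCC := H24.LNT.fcc hEXA
  have hFGL : T_FGL := H60.LNT.fgl hEXA
  have hFLA : T_FLA := H59.LNT.pf_FLA hRUN hFCC H59.LNT.pf_FLO H59.LNT.pf_FFO hFGL
  have hEQC : T_EQC := H98.LNT.eqc hRUN
  have hSUR : T_SUR := H31.LNT.sur hRUN
  have hXC : T_XC := H46.LNT.xc hRUN hEQC hSUR H59.LNT.pf_COX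
  have hPRL : T_PRL := H73.LNT.prl hRUN
  have hNF : T_NF := H59.LNT.pf_NF hRUN hPRL hXC
  have hEVA : T_EVA := H73.LNT.eva hRUN
  have hEVP : T_EVP := H73.LNT.evp hRUN hEVA hPRL
  have hBLV : T_BLV := H99.LNT.blv hRUN hEVA hEVP hPRL
  have hGAU : T_GAU := H70.LNT.gau hRUN hEVA hBLV
  have hGEQ : T_GEQ := H42.LNT.geq hRUN
  have hC1 : T_C1 := H35.LNT.c1 hRUN hEQC hSUR hPRL hNF hEVP hBLV hGEQ
  have hC2 : T_C2 := H39.LNT.c2 hRUN hSUR hEVA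
  have hBL2 : T_BL2 := H34.LNT.bl2 hRUN
  have hHEX : T_HEX := H34.LNT.hex hC1 hBLV
  have hHRO : T_HRO := H34.LNT.hro hC2 hBL2 hBLV
  have hHRK : T_HRK := H31.LNT.hrk hRUN hC2 hBL2 hBLV hEVA
  have hHEM : T_HEM := H34.LNT.hem hRUN hC2 hBL2 hBLV hEVA
  have hHSW : T_HSW := H7.LNT.hsw hRUN hC2 hBL2 hEVA
  have hHKI : T_HKI := H42.LNT.hki hRUN hC2 hBL2 hBLV hEVA
  have hHFO : T_HFO := H74.LNT.hfo hRUN hC2 hBL2 hBLV hEVA
  have hFUL : T_FUL := H68.LNT.ful H78.LNT.spl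
  have hPRM : T_PRM := H26.LNT.prm hFUL
  have hWSA : T_WSA := H25.LNT.wsa hFUL hPRM
  have hSYM : T_SYM := H63.LNT.sym hFLA hHEX hHRO hHRK hHEM hHSW hHKI hHFO hWSA H45.LNT.wsi
    H11.LNT.wsf hGAU hRUN hBLV
  have hREA : T_REA := H31.LNT.rea hC2 hBL2 hGAU hRUN
  have hCUB : T_CUB := H82.LNT.pf_CUB H34.LNT.mah
  have hRES : T_RES := H21.LNT.res hEXA
  have hLFT : T_LFT := H31.LNT.lft_row hRUN hCUB hRES
  have hVFC : T_VFC := H25.LNT.vfc hRUN hEXA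
  have hWSC : T_WSC := H49.LNT.wsc
  have hSYS : T_SYS := H29.LNT.sys hSYM hREA hGAU H99.LNT.fgc hWSC hVFC hEXA hRUN
  have hBRI : T_BRI := H86.LNT.bri hREA hGAU hWSC hVFC hEXA
  have hBRL : T_BRL := H78.LNT.brl hLFT hVFC
  exact asm hSYS hBRI hBRL (H99.LNT.fgq _ _ _) (H99.LNT.str _ _ _)
    (H13.LNT.tor _ _ _ (H99.LNT.fgq _ _ _)) (H83.LNT.aqp _ _ _) P hP

end Pool.Agent.H13.LN
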