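import Pool.Agent.H59.LIN.Stmt

/-!
# Weight systems, Vassiliev invariants and torsion (`MP_559314_gt`): definitions

Knots are closures of braid words, see `Pool.Agent.H59.LIN.Stmt` (`Wd`, `SWd`, `Knot`, `Mv`,
`KInv`, `ext`, `dbl`, `gauss`). Chord diagrams are words in which every letter occurs twice.
-/

set_option autoImplicit false

open Finset

namespace Pool.Agent.H13.LN

open Pool.Agent.H59.LIN

/-- Chord diagrams with `d` chords on an oriented circle with a base point: one reads the endpoints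
of the chords along the circle, the two endpoints of a chord have the same letter. -/
def Gw (d : ℕ) (l : List ℕ) : Prop := l.length = 2 * d ∧ ∀ a ∈ l, l.count a = 2

/-- Weight systems of degree `d` with values in `R`: functions on the chord diagrams with `d`
chords which do not depend on the names of the chords and on the base point, which vanish on the
diagrams with an isolated chord and satisfy the four term relations. -/
structure WS {R : Type*} [AddCommGroup R] (d : ℕ) (W : List ℕ → R) : Prop where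
  relab : ∀ (l : List ℕ) (f : ℕ → ℕ), Gw d l → Set.InjOn f {a | a ∈ l} → W (l.map f) = W l
  rot : ∀ (a : ℕ) (l : List ℕ), Gw d (a :: l) → W (l ++ [a]) = W (a :: l)
  isol : ∀ (A B : List ℕ) (a : ℕ), Gw d (A ++ a :: a :: B) → W (A ++ a :: a :: B) = 0
  four : ∀ (A B C : List ℕ) (a b : ℕ), Gw d (A ++ a :: b :: (B ++ a :: C)) →
    W (A ++ a :: b :: (B ++ a :: C)) - W (A ++ b :: a :: (B ++ a :: C)) +
      W (A ++ a :: (B ++ a :: b :: C)) - W (A ++ a :: (B ++ b :: a :: C)) = 0

/-- `v` has degree at most `d`: it vanishes on all singular knots with more than `d` double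
points. -/
def FT {R : Type*} [AddCommGroup R] (v : (n : ℕ) → Wd n → R) (d : ℕ) : Prop :=
  ∀ (n : ℕ) (w : SWd n), Knot w → d < dbl w → ext (v n) [] w = 0

/-- The question for the ring `R`: every weight system of every degree `d` is induced by a
Vassiliev invariant of degree at most `d`. -/
def Yes (R : Type*) [Ring R] : Prop :=
  ∀ (d : ℕ) (W : List ℕ → R), WS d W → ∃ v : (n : ℕ) → Wd n → R, KInv v ∧ FT v d ∧
    ∀ (n : ℕ) (w : SWd n), Knot w → dbl w = d → ext (v n) [] w = W (gauss w)

/-- The chord diagrams with `d` chords. -/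
abbrev GW (d : ℕ) : Type := {l : List ℕ // Gw d l}

/-- The relations between the chord diagrams with `d` chords. -/
inductive Rel (d : ℕ) : (GW d →₀ ℤ) → Prop
  | relab (l l' : GW d) (f : ℕ → ℕ) : Set.InjOn f {a | a ∈ l.1} → l'.1 = l.1.map f →
      Rel d (Finsupp.single l' 1 - Finsupp.single l 1)
  | rot (l l' : GW d) (a : ℕ) (m : List ℕ) : l.1 = a :: m → l'.1 = m ++ [a] →
      Rel d (Finsupp.single l' 1 - Finsupp.single l 1)
  | isol (l : GW d) (A B : List ℕ) (a : ℕ) : l.1 = A ++ a :: a :: B →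
      Rel d (Finsupp.single l 1)
  | four (l₁ l₂ l₃ l₄ : GW d) (A B C : List ℕ) (a b : ℕ) : l₁.1 = A ++ a :: b :: (B ++ a :: C) →
      l₂.1 = A ++ b :: a :: (B ++ a :: C) → l₃.1 = A ++ a :: (B ++ a :: b :: C) →
      l₄.1 = A ++ a :: (B ++ b :: a :: C) →
      Rel d (Finsupp.single l₁ 1 - Finsupp.single l₂ 1 + Finsupp.single l₃ 1 - Finsupp.single l₄ 1)

/-- The group `𝒜(S¹; ℤ)^(d) / FI` of chord diagrams with `d` chords: the free abelian group on the
chord diagrams modulo the four term relations and the diagrams with an isolated chord. -/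
abbrev Chd (d : ℕ) : Type := (GW d →₀ ℤ) ⧸ AddSubgroup.closure {x : GW d →₀ ℤ | Rel d x}

/-- The braid words whose closure is a knot. -/
abbrev KW : Type := Σ n : ℕ, {w : Wd n // Knot w}

open Classical in
/-- The knot of the word `w` (`0` if the closure is not connected). -/
noncomputable def kn (n : ℕ) (w : Wd n) : KW →₀ ℤ :=
  if h : Knot w then Finsupp.single ⟨n, w, h⟩ 1 else 0

/-- The subgroup of the free abelian group on the braid words whose closure is a knot which is
generated by the differences of words with the same knot and by the singular knots with at least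
`d` double points. So the quotient is `ℤ𝕂 / ℱ_d(ℤ𝕂)`. -/
noncomputable def Fil (d : ℕ) : AddSubgroup (KW →₀ ℤ) :=
  AddSubgroup.closure ({x | ∃ a b : KW, Mv ⟨a.1, a.2.1⟩ ⟨b.1, b.2.1⟩ ∧
      x = Finsupp.single a 1 - Finsupp.single b 1} ∪
    {x | ∃ (n : ℕ) (w : SWd n), Knot w ∧ d ≤ dbl w ∧ x = ext (kn n) [] w})

/-- The final statement. -/
def Main : Prop :=
  ((∀ (R : Type) [CommRing R], Yes R) ↔
    Yes ℚ ∧ ∀ (d : ℕ) (x : Chd d) (m : ℤ), m ≠ 0 → m • x = 0 → x = 0) ∧
  ((∀ (R : Type) [CommRing R], Yes R) ↔ Yes ℚ ∧ ∀ p : ℕ, p.Prime → Yes (ZMod p)) ∧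
  (Yes ℚ → ∀ p : ℕ, p.Prime → (Yes (ZMod p) ↔ ∀ (d : ℕ) (x : Chd d), p • x = 0 → x = 0)) ∧
  (∀ p : ℕ, p.Prime → Yes (ZMod p) → ∀ (d : ℕ) (x : KW →₀ ℤ), p • x ∈ Fil d → x ∈ Fil d)

end Pool.Agent.H13.LN
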