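import Pool.Agent.H13.LN.Defs

/-!
# Weight systems, Vassiliev invariants and torsion (`MP_559314_gt`): targets of the rows
-/

set_option autoImplicit false

open Finset

namespace Pool.Agent.H13.LN

open Pool.Agent.H59.LIN

/-! ### Part F: from invariants to functions on flat words -/

/-- (EXA) the extension to singular words. -/
def T_EXA : Prop :=
  (∀ (B : Type) [AddCommGroup B] (n : ℕ) (F : Wd n → B) (u : Wd n) (w w' : SWd n),
    ext F u (w ++ w') = ext (fun r => ext F r w') u w) ∧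
  (∀ (B : Type) [AddCommGroup B] (n : ℕ) (F : Wd n → B) (u z : Wd n) (w : SWd n),
    ext F (u ++ z) w = ext (fun r => F (u ++ r)) z w) ∧
  (∀ (B : Type) [AddCommGroup B] (n : ℕ) (F G : Wd n → B) (u : Wd n) (w : SWd n),
    (∀ r : Wd n, (∀ p, run r p = run w (run u p)) → F r = G r) → ext F u w = ext G u w) ∧
  (∀ (B : Type) [AddCommGroup B] (n : ℕ) (F : Wd (n + 1) → B) (u : Wd n) (w : SWd n),
    ext F (up u) (w.map fun x => (x.1.castSucc, x.2)) = ext (fun r => F (up r)) u w) ∧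
  (∀ (B : Type) [AddCommGroup B] (n : ℕ) (G : Wd n → Wd n → B) (u u' : Wd n) (w w' : SWd n),
    ext (fun r => ext (fun s => G r s) u' w') u w =
      ext (fun s => ext (fun r => G r s) u w) u' w') ∧
  (∀ (B : Type) [AddCommGroup B] (n : ℕ) (F G : Wd n → B) (u : Wd n) (w : SWd n),
    ext (fun r => F r - G r) u w = ext F u w - ext G u w) ∧
  (∀ (B C : Type) [AddCommGroup B] [AddCommGroup C] (φ : B →+ C) (n : ℕ) (F : Wd n → B)
    (u : Wd n) (w : SWd n), ext (fun r => φ (F r)) u w = φ (ext F u w))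

/-- (RUN) permutations of words. -/
def T_RUN : Prop :=
  (∀ (n : ℕ) (α : Type) (u v : List (Fin n × α)) (p : Fin (n + 1)),
    run (u ++ v) p = run v (run u p)) ∧
  (∀ (n : ℕ) (α : Type) (u : List (Fin n × α)), Function.Bijective (run u)) ∧
  (∀ (n : ℕ) (w : Wd n) (p : Fin (n + 1)), rp w p = run w p) ∧
  (∀ (n : ℕ) (α : Type) (u v : List (Fin n × α)), Knot (u ++ v) → Knot (v ++ u)) ∧
  (∀ (n : ℕ) (α β : Type) (u : List (Fin n × α)) (v : List (Fin n × β)), run u = run v →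
    Knot u → Knot v) ∧
  (∀ (n : ℕ) (w : Wd n) (b : Bool), Knot w → Knot (up w ++ [(Fin.last n, b)])) ∧
  (∀ (n : ℕ) (f f' : Wd n), St f f' → run f = run f' ∧ nd f = nd f') ∧
  (∀ (n : ℕ) (f : Wd n), run (lft f) = run f ∧ dbl (lft f) = nd f ∧ flt (lft f) = f) ∧
  (∀ (n : ℕ) (w : SWd n), run (flt w) = run w ∧ nd (flt w) = dbl w)

/-- (FCC) crossing changes. -/
def T_FCC : Prop :=
  ∀ (B : Type) [AddCommGroup B] (v : (n : ℕ) → Wd n → B) (d : ℕ), FT v d →
    (∀ (n : ℕ) (w w' : SWd n) (i : Fin n), Knot (w ++ (i, some true) :: w') →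
      dbl (w ++ (i, some true) :: w') = d →
      ext (v n) [] (w ++ (i, some true) :: w') = ext (v n) [] (w ++ (i, some false) :: w')) ∧
    ∀ (n : ℕ) (w : SWd n), Knot w → dbl w = d → ext (v n) [] w = ext (v n) [] (lft (flt w))

/-- (FLO) local relations. -/
def T_FLO : Prop :=
  ∀ (B : Type) [AddCommGroup B] (v : (n : ℕ) → Wd n → B), KInv v → ∀ (n : ℕ) (u w : SWd n),
    (∀ i : Fin n, Knot (u ++ w) →
      ext (v n) [] (u ++ (i, some true) :: (i, some false) :: w) = ext (v n) [] (u ++ w)) ∧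
    (∀ (i j : Fin n) (b c : Option Bool), (i : ℕ) + 1 < j → Knot (u ++ (i, b) :: (j, c) :: w) →
      ext (v n) [] (u ++ (i, b) :: (j, c) :: w) = ext (v n) [] (u ++ (j, c) :: (i, b) :: w)) ∧
    (∀ i : Fin n, Knot (u ++ (i, some true) :: (i, none) :: w) →
      ext (v n) [] (u ++ (i, some true) :: (i, none) :: w) =
        ext (v n) [] (u ++ (i, none) :: (i, some true) :: w)) ∧
    (∀ (i j : Fin n) (b : Option Bool), (j : ℕ) = i + 1 →
      Knot (u ++ (i, some true) :: (j, some true) :: (i, b) :: w) →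
      ext (v n) [] (u ++ (i, some true) :: (j, some true) :: (i, b) :: w) =
        ext (v n) [] (u ++ (j, b) :: (i, some true) :: (j, some true) :: w)) ∧
    (∀ (i j : Fin n) (b : Option Bool), (j : ℕ) = i + 1 →
      Knot (u ++ (j, some true) :: (i, some true) :: (j, b) :: w) →
      ext (v n) [] (u ++ (j, some true) :: (i, some true) :: (j, b) :: w) =
        ext (v n) [] (u ++ (i, b) :: (j, some true) :: (i, some true) :: w))

/-- (FFO) the four term relation for words. -/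
def T_FFO : Prop :=
  ∀ (B : Type) [AddCommGroup B] (v : (n : ℕ) → Wd n → B), KInv v →
    ∀ (n : ℕ) (u w : SWd n) (i j : Fin n), (j : ℕ) = i + 1 →
    Knot (u ++ (i, none) :: (j, some true) :: (j, none) :: w) →
    ext (v n) [] (u ++ (i, none) :: (j, some true) :: (j, none) :: w) +
      ext (v n) [] (u ++ (i, none) :: (j, some true) :: (i, some true) :: (i, none) ::
        (j, some true) :: w) =
    ext (v n) [] (u ++ (j, some true) :: (j, none) :: (i, none) :: w) +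
      ext (v n) [] (u ++ (j, some true) :: (i, some true) :: (i, none) :: (j, some true) ::
        (i, none) :: w)

/-- (FGL) conjugation and stabilization. -/
def T_FGL : Prop :=
  ∀ (B : Type) [AddCommGroup B] (v : (n : ℕ) → Wd n → B), KInv v → ∀ (n : ℕ) (u w : SWd n),
    Knot (u ++ w) → ext (v n) [] (u ++ w) = ext (v n) [] (w ++ u) ∧
    (∀ b : Bool, ext (v (n + 1)) [] ((u ++ w).map (fun x => (x.1.castSucc, x.2)) ++
      [(Fin.last n, some b)]) = ext (v n) [] (u ++ w)) ∧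
    ext (v (n + 1)) [] ((u ++ w).map (fun x => (x.1.castSucc, x.2)) ++ [(Fin.last n, none)]) = 0

/-- (FLA) flat words. -/
def T_FLA : Prop :=
  ∀ (B : Type) [AddCommGroup B] (v : (n : ℕ) → Wd n → B) (d : ℕ), KInv v → FT v d →
    Flat d (fun n f => ext (v n) [] (lft f)) ∧
    ∀ (n : ℕ) (w : SWd n), Knot w → dbl w = d → ext (v n) [] w = ext (v n) [] (lft (flt w))

/-! ### Part N: flat words -/

/-- (GEQ) equivalent words. -/
def T_GEQ : Prop :=
  ∀ (B : Type) [AddCommGroup B] (d : ℕ) (g : (n : ℕ) → Wd n → B), Flat d g →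
    ∀ (n : ℕ) (f f' : Wd n), Eqv f f' → Knot f → nd f = d → g n f = g n f'

/-- (EQC) equivalence of words is a congruence; permutations and numbers of double points. -/
def T_EQC : Prop :=
  (∀ (n : ℕ) (f f' a b : Wd n), Eqv f f' → Eqv (a ++ f ++ b) (a ++ f' ++ b)) ∧
  (∀ (n : ℕ) (f f' : Wd n), Eqv f f' → run f = run f' ∧ nd f = nd f')

/-- (SUR) every permutation is the permutation of a word without double points. -/
def T_SUR : Prop :=
  ∀ (n : ℕ) (ρ : Equiv.Perm (Fin (n + 1))), ∃ r : Wd n, nd r = 0 ∧ ∀ p, run r p = ρ p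

/-- (COX) words without double points are determined by their permutation. -/
def T_COX : Prop :=
  ∀ (n : ℕ) (u v : Wd n), nd u = 0 → nd v = 0 → run u = run v → Eqv u v

/-- (XC) conjugation of a double point. -/
def T_XC : Prop :=
  ∀ (n : ℕ) (r : Wd n) (i j : Fin n), nd r = 0 → run r i.castSucc = j.castSucc →
    run r i.succ = j.succ → Eqv ((i, true) :: r) (r ++ [(j, true)])

/-- (PRL) the pairs of strands. -/
def T_PRL : Prop :=
  (∀ (n : ℕ) (σ : Equiv.Perm (Fin (n + 1))) (u v : Wd n),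
    pr σ (u ++ v) = pr σ u ++ pr (σ.trans (rp u)) v) ∧
  (∀ (n : ℕ) (σ ρ : Equiv.Perm (Fin (n + 1))) (u : Wd n),
    pr (ρ.trans σ) u = (pr σ u).map (fun x => (ρ.symm x.1, ρ.symm x.2))) ∧
  (∀ (n : ℕ) (σ : Equiv.Perm (Fin (n + 1))) (u : Wd n), (pr σ u).length = nd u) ∧
  (∀ (n : ℕ) (σ : Equiv.Perm (Fin (n + 1))) (u : Wd n), ∀ x ∈ pr σ u, x.1 ≠ x.2)

/-- (NF) words with the same permutation and the same pairs of strands are equivalent. -/
def T_NF : Prop :=
  ∀ (n : ℕ) (f f' : Wd n), run f = run f' →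
    List.Forall₂ (fun x y => x = y ∨ x = Prod.swap y) (pr (Equiv.refl _) f)
      (pr (Equiv.refl _) f') → Eqv f f'

/-- (EVA) double points met by a strand: composition. -/
def T_EVA : Prop :=
  (∀ (n k : ℕ) (u v : Wd n) (p : Fin (n + 1)),
    ev k (u ++ v) p = ev k u p ++ ev (k + nd u) v (run u p)) ∧
  (∀ (n k m : ℕ) (u : Wd n) (p : Fin (n + 1)), ev (k + m) u p = (ev k u p).map (· + m)) ∧
  (∀ (n k : ℕ) (u : Wd n) (p : Fin (n + 1)), (ev k u p).Pairwise (· < ·) ∧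
    ∀ m ∈ ev k u p, k ≤ m ∧ m < k + nd u)

/-- (EVP) double points met by a strand and pairs of strands. -/
def T_EVP : Prop :=
  ∀ (n : ℕ) (f : Wd n) (p : Fin (n + 1)) (k : ℕ),
    k ∈ ev 0 f p ↔ ∃ x, (pr (Equiv.refl _) f)[k]? = some x ∧ (p = x.1 ∨ p = x.2)

/-- (BLV) the blocks of a knot. -/
def T_BLV : Prop :=
  ∀ (n : ℕ) (f : Wd n) (p : Fin (n + 1)), Knot f →
    VL (nd f) (blk f p) ∧ (blk f p).length = n + 1 ∧ blk f (run f p) = (blk f p).rotate 1 ∧
    (∀ q, ∃ j : Fin (n + 1), (run f)^[(j : ℕ)] p = q) ∧ (run f)^[n + 1] p = p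

/-- (GAU) the chord diagram of a singular knot. -/
def T_GAU : Prop :=
  ∀ (n : ℕ) (w : SWd n), Knot w →
    Gw (dbl w) (gauss w) ∧ gauss w = gauss (lft (flt w)) ∧
    ∃ θ : ℕ → ℕ, StrictMono θ ∧ gauss w = (blk (flt w) 0).flatten.map θ

/-- (C1) the value depends only on the blocks. -/
def T_C1 : Prop :=
  ∀ (B : Type) [AddCommGroup B] (d : ℕ) (g : (n : ℕ) → Wd n → B), Flat d g →
    ∀ (n : ℕ) (f f' : Wd n) (p p' : Fin (n + 1)), Knot f → Knot f' → nd f = d →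
      blk f p = blk f' p' → g n f = g n f'

/-- (C2) realization of blocks, with prescribed strands. -/
def T_C2 : Prop :=
  ∀ (d n : ℕ) (L : List (List ℕ)) (τ : Equiv.Perm (Fin (n + 1))), VL d L → L.length = n + 1 →
    ∃ f : Wd n, nd f = d ∧ (∀ j : Fin (n + 1), L[(j : ℕ)]? = some (ev 0 f (τ j))) ∧
      ∀ j : Fin (n + 1), run f (τ j) = τ (finRotate (n + 1) j)

/-- (BL2) the blocks of a word given by (C2). -/
def T_BL2 : Prop :=
  ∀ (n : ℕ) (L : List (List ℕ)) (τ : Equiv.Perm (Fin (n + 1))) (f : Wd n), L.length = n + 1 →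
    (∀ j : Fin (n + 1), L[(j : ℕ)]? = some (ev 0 f (τ j))) →
    (∀ j : Fin (n + 1), run f (τ j) = τ (finRotate (n + 1) j)) → Knot f ∧ blk f (τ 0) = L

/-! ### Part H: functions on lists of blocks. In all targets of this part `H` is a function on
lists of blocks with `H (blk f p) = g n f` for all knots `f` with `d` double points. -/

/-- the hypothesis on `g` and `H` -/
def GH {B : Type} [AddCommGroup B] (d : ℕ) (g : (n : ℕ) → Wd n → B)
    (H : List (List ℕ) → B) : Prop :=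
  Flat d g ∧ ∀ (n : ℕ) (f : Wd n) (p : Fin (n + 1)), Knot f → nd f = d → H (blk f p) = g n f

/-- (HEX) existence of `H`. -/
def T_HEX : Prop :=
  ∀ (B : Type) [AddCommGroup B] (d : ℕ) (g : (n : ℕ) → Wd n → B), Flat d g → ∃ H, GH d g H

/-- (HRO) rotation of the blocks. -/
def T_HRO : Prop :=
  ∀ (B : Type) [AddCommGroup B] (d : ℕ) (g : (n : ℕ) → Wd n → B) (H : List (List ℕ) → B),
    GH d g H → ∀ (b : List ℕ) (L : List (List ℕ)), VL d (b :: L) → H (L ++ [b]) = H (b :: L)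

/-- (HRK) rotation in time. -/
def T_HRK : Prop :=
  ∀ (B : Type) [AddCommGroup B] (d : ℕ) (g : (n : ℕ) → Wd n → B) (H : List (List ℕ) → B),
    GH d g H → ∀ (κ : ℕ) (L : List (List ℕ)), VL d L → κ ≤ d → H (Rk d κ L) = H L

/-- (HEM) insertion of an empty block. -/
def T_HEM : Prop :=
  ∀ (B : Type) [AddCommGroup B] (d : ℕ) (g : (n : ℕ) → Wd n → B) (H : List (List ℕ) → B),
    GH d g H → ∀ L : List (List ℕ), VL d L → H ([] :: L) = H L

/-- (HSW) exchange of the first two double points. -/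
def T_HSW : Prop :=
  ∀ (B : Type) [AddCommGroup B] (d : ℕ) (g : (n : ℕ) → Wd n → B) (H : List (List ℕ) → B),
    GH d g H → ∀ L : List (List ℕ), VL d L → 2 ≤ d → (∀ b ∈ L, ¬ (0 ∈ b ∧ 1 ∈ b)) →
      H (L.map fun b => b.map (Equiv.swap 0 1)) = H L

/-- (HKI) kinks. -/
def T_HKI : Prop :=
  ∀ (B : Type) [AddCommGroup B] (d : ℕ) (g : (n : ℕ) → Wd n → B) (H : List (List ℕ) → B),
    GH d g H → ∀ (e : ℕ) (b : List ℕ) (L : List (List ℕ)), d = e + 1 → VL e (b :: L) →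
      H ((b ++ [e]) :: [e] :: L) = 0

/-- (HFO) the four term relation. -/
def T_HFO : Prop :=
  ∀ (B : Type) [AddCommGroup B] (d : ℕ) (g : (n : ℕ) → Wd n → B) (H : List (List ℕ) → B),
    GH d g H → ∀ (e : ℕ) (L₁ L₂ L₃ : List (List ℕ)), d = e + 2 →
    VL e ([] :: (L₁ ++ [] :: (L₂ ++ [] :: L₃))) →
    H ([0, 1] :: (s2 L₁ ++ [0] :: (s2 L₂ ++ [1] :: s2 L₃))) +
      H ([0] :: (s2 L₁ ++ [0, 1] :: (s2 L₂ ++ [1] :: s2 L₃))) =
    H ([1] :: (s2 L₁ ++ [0, 1] :: (s2 L₂ ++ [0] :: s2 L₃))) +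
      H ([0, 1] :: (s2 L₁ ++ [1] :: (s2 L₂ ++ [0] :: s2 L₃)))

/-! ### Part W: from lists of blocks to chord diagrams -/

/-- (SPL) splitting a block. -/
def T_SPL : Prop :=
  ∀ (B : Type) [AddCommGroup B] (d : ℕ) (H : List (List ℕ) → B), HI d H →
    ∀ (u v : List ℕ) (L : List (List ℕ)), VL d ((u ++ v) :: L) →
      H (u :: v :: L) = H ((u ++ v) :: L)

/-- (FUL) splitting all blocks. -/
def T_FUL : Prop :=
  ∀ (B : Type) [AddCommGroup B] (d : ℕ) (H : List (List ℕ) → B), HI d H →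
    ∀ L : List (List ℕ), VL d L → H L = H ([] :: L.flatten.map (fun k => [k]))

/-- (PRM) the names of the double points. -/
def T_PRM : Prop :=
  ∀ (B : Type) [AddCommGroup B] (d : ℕ) (H : List (List ℕ) → B), HI d H →
    ∀ (l : List ℕ) (σ : ℕ → ℕ), (∀ k, l.count k = if k < d then 2 else 0) →
      Set.InjOn σ {k | k < d} → (∀ k, k < d → σ k < d) →
      H ([] :: (l.map σ).map (fun k => [k])) = H ([] :: l.map (fun k => [k]))

/-- (WSA) the function on chord diagrams. -/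
def T_WSA : Prop :=
  ∀ (B : Type) [AddCommGroup B] (d : ℕ) (H : List (List ℕ) → B), HI d H →
    ∃ S : List ℕ → B,
      (∀ (l : List ℕ) (f : ℕ → ℕ), Gw d l → Set.InjOn f {a | a ∈ l} → S (l.map f) = S l) ∧
      (∀ (a : ℕ) (l : List ℕ), Gw d (a :: l) → S (l ++ [a]) = S (a :: l)) ∧
      ∀ L : List (List ℕ), VL d L → H L = S L.flatten

/-- (WSI) isolated chords. -/
def T_WSI : Prop :=
  ∀ (B : Type) [AddCommGroup B] (d : ℕ) (H : List (List ℕ) → B) (S : List ℕ → B), HI d H →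
    (∀ (l : List ℕ) (f : ℕ → ℕ), Gw d l → Set.InjOn f {a | a ∈ l} → S (l.map f) = S l) →
    (∀ (a : ℕ) (l : List ℕ), Gw d (a :: l) → S (l ++ [a]) = S (a :: l)) →
    (∀ L : List (List ℕ), VL d L → H L = S L.flatten) →
    ∀ (A B : List ℕ) (a : ℕ), Gw d (A ++ a :: a :: B) → S (A ++ a :: a :: B) = 0

/-- (WSF) the four term relation. -/
def T_WSF : Prop :=
  ∀ (B : Type) [AddCommGroup B] (d : ℕ) (H : List (List ℕ) → B) (S : List ℕ → B), HI d H →
    (∀ (l : List ℕ) (f : ℕ → ℕ), Gw d l → Set.InjOn f {a | a ∈ l} → S (l.map f) = S l) →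
    (∀ (a : ℕ) (l : List ℕ), Gw d (a :: l) → S (l ++ [a]) = S (a :: l)) →
    (∀ L : List (List ℕ), VL d L → H L = S L.flatten) →
    ∀ (A B C : List ℕ) (a b : ℕ), Gw d (A ++ a :: b :: (B ++ a :: C)) →
      S (A ++ a :: b :: (B ++ a :: C)) - S (A ++ b :: a :: (B ++ a :: C)) +
        S (A ++ a :: (B ++ a :: b :: C)) - S (A ++ a :: (B ++ b :: a :: C)) = 0

/-- (SYM) the symbol of an invariant is a weight system. -/
def T_SYM : Prop :=
  ∀ (B : Type) [AddCommGroup B] (v : (n : ℕ) → Wd n → B) (d : ℕ), KInv v → FT v d →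
    ∃ S : List ℕ → B, WS d S ∧
      ∀ (n : ℕ) (w : SWd n), Knot w → dbl w = d → ext (v n) [] w = S (gauss w)

/-- (REA) every chord diagram is the diagram of a singular knot. -/
def T_REA : Prop :=
  ∀ (d : ℕ) (l : List ℕ), Gw d l → ∃ (n : ℕ) (w : SWd n) (f : ℕ → ℕ), Knot w ∧ dbl w = d ∧
    Set.InjOn f {a | a ∈ l} ∧ gauss w = l.map f

/-! ### Part L: lifting -/

/-- (MAH) functions on `ℤ / p ^ a` are combinations of binomial coefficients. -/
def T_MAH : Prop :=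
  ∀ (p a : ℕ), p.Prime → ∀ s : ZMod (p ^ a) → ZMod (p ^ (a + 1)),
    ∃ (J : ℕ) (γ : ℕ → ZMod (p ^ (a + 1))), ∀ n : ℕ,
      s (n : ZMod (p ^ a)) = ∑ j ∈ range J, ((n.choose j : ℕ) : ZMod (p ^ (a + 1))) * γ j

/-- (CUB) functions on a cube. -/
def T_CUB : Prop :=
  ∀ (p a e : ℕ), p.Prime → ∀ s : ZMod (p ^ a) → ZMod (p ^ (a + 1)), ∃ M : ℕ, ∀ m : ℕ, M < m →
    ∀ h : Finset (Fin m) → ZMod (p ^ a),
      (∀ δ : Finset (Fin m), e < δ.card →
        ∑ ε ∈ δ.powerset, (-1) ^ (δ.card - ε.card) * h ε = 0) →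
      ∑ ε : Finset (Fin m), (-1) ^ (m - ε.card) * s (h ε) = 0

/-- (RES) resolutions of a singular word. -/
def T_RES : Prop :=
  ∀ (n : ℕ) (w : SWd n), ∃ (r : Finset (Fin (dbl w)) → Wd n)
    (q : Finset (Fin (dbl w)) → SWd n), (∀ ε, run (r ε) = run w) ∧
    (∀ δ, run (q δ) = run w ∧ dbl (q δ) = δ.card) ∧ ∀ (B : Type) [AddCommGroup B] (F : Wd n → B),
      ext F [] w = ∑ ε, (-1 : ℤ) ^ (dbl w - ε.card) • F (r ε) ∧
      ∀ δ, ext F [] (q δ) = ∑ ε ∈ δ.powerset, (-1 : ℤ) ^ (δ.card - ε.card) • F (r ε)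

/-- (LFT) functions of invariants of finite type are of finite type. -/
def T_LFT : Prop :=
  ∀ (p a d : ℕ) (v : (n : ℕ) → Wd n → ZMod (p ^ a)), p.Prime → FT v d →
    ∀ s : ZMod (p ^ a) → ZMod (p ^ (a + 1)), ∃ M, FT (fun n w => s (v n w)) M

/-! ### Part A: algebra -/

section

variable (U : Type) [AddCommGroup U] (F : ℕ → AddSubgroup U) (A : ℕ → Type)
  [∀ d, AddCommGroup (A d)]

/-- (FGQ) the quotients are finitely generated. -/
def T_FGQ : Prop := ∀ (S : Sys U F A) (d : ℕ), AddGroup.FG (U ⧸ F d)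

/-- (STR) multiples of `p` in `F d`. -/
def T_STR : Prop :=
  ∀ (S : Sys U F A) (p : ℕ), p.Prime → S.Ys (ZMod p) → ∀ d M : ℕ, d ≤ M → ∀ x : U, p • x ∈ F d →
    ∃ y ∈ F d, ∃ z ∈ F M, p • x = p • y + z

/-- (TOR) no torsion in `U / F d`. -/
def T_TOR : Prop :=
  ∀ (S : Sys U F A) (p : ℕ), p.Prime → Lf F p → (∀ d M : ℕ, d ≤ M → ∀ x : U, p • x ∈ F d →
    ∃ y ∈ F d, ∃ z ∈ F M, p • x = p • y + z) → ∀ (d : ℕ) (x : U), p • x ∈ F d → x ∈ F d

/-- (AZP) no torsion in `A d`, from the rings `ℤ / p ^ a`. -/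
def T_AZP : Prop :=
  ∀ (S : Sys U F A) (p : ℕ), p.Prime → (∀ a, S.Ys (ZMod (p ^ a))) →
    (∀ (d : ℕ) (x : U), p • x ∈ F d → x ∈ F d) → ∀ (d : ℕ) (x : A d), p • x = 0 → x = 0

/-- (AQP) no torsion in `A d`, from `ℚ` and `ℤ / p`. -/
def T_AQP : Prop :=
  ∀ (S : Sys U F A) (p : ℕ), p.Prime → S.Ys ℚ → S.Ys (ZMod p) →
    (∀ (d : ℕ) (x : U), p • x ∈ F d → x ∈ F d) → ∀ (d : ℕ) (x : A d), p • x = 0 → x = 0

/-- (APY) `ℤ / p`, if there is no torsion of order `p`. -/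
def T_APY : Prop :=
  ∀ (S : Sys U F A) (p : ℕ), p.Prime → S.Ys ℚ → (∀ (d : ℕ) (x : A d), p • x = 0 → x = 0) →
    S.Ys (ZMod p)

/-- (AYS) all groups, if there is no torsion. -/
def T_AYS : Prop :=
  ∀ (S : Sys U F A), S.Ys ℚ → (∀ (d : ℕ) (x : A d) (m : ℤ), m ≠ 0 → m • x = 0 → x = 0) →
    ∀ (B : Type) [AddCommGroup B], S.Ys B

end

/-- (TFP) torsion and torsion of prime order. -/
def T_TFP : Prop :=
  ∀ (A : Type) [AddCommGroup A], (∀ (x : A) (m : ℤ), m ≠ 0 → m • x = 0 → x = 0) ↔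
    ∀ p : ℕ, p.Prime → ∀ x : A, p • x = 0 → x = 0

/-! ### Part B: the bridge -/

/-- (FGC) the group of chord diagrams is finitely generated. -/
def T_FGC : Prop := ∀ d : ℕ, AddGroup.FG (Chd d)

/-- (WSC) weight systems are homomorphisms. -/
def T_WSC : Prop :=
  ∀ (d : ℕ) (B : Type) [AddCommGroup B],
    (∀ W : List ℕ → B, WS d W → ∃ φ : Chd d →+ B, ∀ l : GW d,
      φ (QuotientAddGroup.mk (Finsupp.single l 1)) = W l.1) ∧
    ∀ φ : Chd d →+ B, ∃ W : List ℕ → B, WS d W ∧ ∀ l : GW d,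
      φ (QuotientAddGroup.mk (Finsupp.single l 1)) = W l.1

/-- (VFC) invariants are homomorphisms. -/
def T_VFC : Prop :=
  ∀ (d : ℕ) (B : Type) [AddCommGroup B],
    (∀ v : (n : ℕ) → Wd n → B, KInv v → FT v d → ∃ φ : (KW →₀ ℤ) ⧸ Fil (d + 1) →+ B,
      (∀ (n : ℕ) (w : Wd n), Knot w → φ (QuotientAddGroup.mk (kn n w)) = v n w) ∧
      ∀ (n : ℕ) (w : SWd n), Knot w →
        φ (QuotientAddGroup.mk (ext (kn n) [] w)) = ext (v n) [] w) ∧
    ∀ φ : (KW →₀ ℤ) ⧸ Fil (d + 1) →+ B,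
      KInv (fun (n : ℕ) (w : Wd n) => φ (QuotientAddGroup.mk (kn n w))) ∧
      FT (fun (n : ℕ) (w : Wd n) => φ (QuotientAddGroup.mk (kn n w))) d ∧
      ∀ (n : ℕ) (w : SWd n), Knot w →
        ext (fun u : Wd n => φ (QuotientAddGroup.mk (kn n u))) [] w =
          φ (QuotientAddGroup.mk (ext (kn n) [] w))

/-- the presentation of the graded pieces by chord diagrams -/
def Nat' (S : Sys (KW →₀ ℤ) Fil Chd) : Prop :=
  ∀ (d n : ℕ) (w : SWd n) (l : GW d), Knot w → dbl w = d → gauss w = l.1 →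
    S.φ d (QuotientAddGroup.mk (Finsupp.single l 1)) = QuotientAddGroup.mk (ext (kn n) [] w)

/-- (SYS) the filtered group of knots. -/
def T_SYS : Prop := ∃ S : Sys (KW →₀ ℤ) Fil Chd, Nat' S

/-- (BRI) the question in terms of the filtered group of knots. -/
def T_BRI : Prop :=
  ∀ S : Sys (KW →₀ ℤ) Fil Chd, Nat' S → ∀ (R : Type) [Ring R], Yes R ↔ S.Ys R

/-- (BRL) lifting of homomorphisms on the filtered group of knots. -/
def T_BRL : Prop := ∀ p : ℕ, p.Prime → Lf Fil p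

end Pool.Agent.H13.LN
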